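import Pool.Agent.Helper18.SF.Half

set_option autoImplicit false

/-! The shadow of a 3-graph without four edges on seven vertices has small energy. -/

namespace Pool.Agent.Helper18.Kept.HalfEnergy

open Finset Pool.Agent.Helper18.SF

/-- For every `ε > 0`, every `K` and all large `n`, let `H` be a 3-graph on `n` vertices in which
every 7-vertex set contains fewer than four edges. (1) For every vertex set `U` and every partition
of the vertices into `K` parts, the sum over the parts `P` of `links U P ^ 2 / (|U| |P|)` is at most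
`links U univ / 2 + ε n ^ 2`. (2) For every partition into `K` parts and every set `T` of pairs of
parts, `H` has at most `dist / 3 + ε n ^ 2` edges. -/
theorem result : ∀ ε : ℝ, ε > 0 → ∀ K : ℕ, ∃ N : ℕ, ∀ n : ℕ, N ≤ n →
    ∀ H : Finset (Finset (Fin n)),
      (∀ e ∈ H, e.card = 3) →
      (∀ S : Finset (Fin n), S.card = 7 → (H.filter (fun e => e ⊆ S)).card < 4) →
      (∀ (U : Finset (Fin n)) (p : Fin n → Fin K),
        ∑ j, (links H U (cls p j) : ℝ) ^ 2 / ((U.card : ℝ) * ((cls p j).card : ℝ)) ≤
          (1 / 2) * (links H U univ : ℝ) + ε * (n : ℝ) ^ 2) ∧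
      (∀ (p : Fin n → Fin K) (T : Finset (Fin K × Fin K)),
        (H.card : ℝ) ≤ (1 / 3) * (dist H p T : ℝ) + ε * (n : ℝ) ^ 2) := by
  intro ε hε K
  obtain ⟨N1, h1⟩ := half_one ε hε K
  obtain ⟨N2, h2⟩ := half_two ε hε K
  refine ⟨max N1 N2, fun n hn H h3 h7 => ⟨?_, ?_⟩⟩
  · exact h1 n (le_trans (le_max_left _ _) hn) H h3 h7
  · exact h2 n (le_trans (le_max_right _ _) hn) H h3 h7

end Pool.Agent.Helper18.Kept.HalfEnergy
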